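import Mathlib

/-!
# `Ext` over an augmented algebra from a minimal free resolution of the trivial module
-/

universe u

open CategoryTheory Matrix Abelian

namespace Pool.Agent.TH38.Kos.ExtAux

variable {k A : Type u} [Field k] [Ring A] [Algebra k A] (ε : A →ₐ[k] k)

/-- The trivial module. -/
noncomputable def T : ModuleCat.{u} A :=
  (ModuleCat.restrictScalars ε.toRingHom).obj (ModuleCat.of k k)

/-- Elements of `k` as elements of the trivial module. -/
def toT (c : k) : T ε := c

/-- Elements of the trivial module as elements of `k`. -/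
def ofT (x : T ε) : k := x

@[simp] lemma ofT_toT (c : k) : ofT ε (toT ε c) = c := rfl
@[simp] lemma toT_ofT (x : T ε) : toT ε (ofT ε x) = x := rfl
lemma ofT_add (x y : T ε) : ofT ε (x + y) = ofT ε x + ofT ε y := rfl
lemma ofT_zero : ofT ε 0 = 0 := rfl
lemma ofT_smul (a : A) (x : T ε) : ofT ε (a • x) = ε a * ofT ε x := rfl
lemma toT_add (x y : k) : toT ε (x + y) = toT ε x + toT ε y := rfl
lemma toT_mul (a : A) (x : k) : toT ε (ε a * x) = a • toT ε x := rfl

variable (rk : ℕ → ℕ) (M : (i : ℕ) → Matrix (Fin (rk (i + 1))) (Fin (rk i)) A)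

/-- The free module of rank `rk i`. -/
abbrev P (i : ℕ) : ModuleCat.{u} A := ModuleCat.of A (Fin (rk i) → A)

/-- The differential. -/
noncomputable abbrev dd (i : ℕ) : P (A := A) rk (i + 1) ⟶ P rk i :=
  ModuleCat.ofHom (M i).vecMulLinear

variable {rk M}

lemma dd_comp (hM : ∀ i (v : Fin (rk (i + 1)) → A), v ᵥ* M i = 0 ↔ ∃ w, w ᵥ* M (i + 1) = v)
    (i : ℕ) : dd rk M (i + 1) ≫ dd rk M i = 0 := by
  refine ModuleCat.hom_ext (LinearMap.ext fun v => ?_)
  exact (hM i _).2 ⟨v, rfl⟩

/-- The augmentation map `A^{rk 0} → T`. -/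
noncomputable def pi0Lin : (Fin (rk 0) → A) →ₗ[A] T ε where
  toFun v := toT ε (∑ p, ε (v p))
  map_add' v w := by
    rw [← toT_add, ← Finset.sum_add_distrib]
    simp
  map_smul' a v := by
    rw [RingHom.id_apply, ← toT_mul, Finset.mul_sum]
    simp

/-- The augmentation map `P_0 → T`. -/
noncomputable def pi0 : P (A := A) rk 0 ⟶ T ε :=
  (ModuleCat.ofHom (pi0Lin ε) : ModuleCat.of A (Fin (rk 0) → A) ⟶ ModuleCat.of A (T ε))

lemma pi0_hom : (pi0 (rk := rk) ε).hom = pi0Lin ε := rfl

variable (M) in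
/-- The complex. -/
noncomputable abbrev cplx
    (hM : ∀ i (v : Fin (rk (i + 1)) → A), v ᵥ* M i = 0 ↔ ∃ w, w ᵥ* M (i + 1) = v) :
    ChainComplex (ModuleCat.{u} A) ℕ :=
  ChainComplex.of (P rk) (dd rk M) (dd_comp hM)

lemma cplx_d (hM : ∀ i (v : Fin (rk (i + 1)) → A), v ᵥ* M i = 0 ↔ ∃ w, w ᵥ* M (i + 1) = v)
    (i : ℕ) : (cplx M hM).d (i + 1) i = dd rk M i := by
  simp

variable (h0 : rk 0 = 1)
    (hε : ∀ v : Fin (rk 0) → A, (∀ p, ε (v p) = 0) ↔ ∃ w, w ᵥ* M 0 = v)
    (hM : ∀ i (v : Fin (rk (i + 1)) → A), v ᵥ* M i = 0 ↔ ∃ w, w ᵥ* M (i + 1) = v)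

include hε in
lemma dd_pi0 : dd rk M 0 ≫ pi0 ε = 0 := by
  refine ModuleCat.hom_ext (LinearMap.ext fun v => ?_)
  have h := (hε _).2 ⟨v, rfl⟩
  change toT ε (∑ p, ε ((v ᵥ* M 0) p)) = 0
  rw [Finset.sum_eq_zero fun p _ => h p]
  rfl

include h0 in
lemma pi0_surj : Function.Surjective (pi0Lin (rk := rk) ε) := by
  intro x
  refine ⟨fun _ => algebraMap k A (ofT ε x), ?_⟩
  change toT ε (∑ p : Fin (rk 0), ε (algebraMap k A (ofT ε x))) = x
  simp [h0]

include h0 in
lemma pi0_exact (hε : ∀ v : Fin (rk 0) → A, (∀ p, ε (v p) = 0) ↔ ∃ w, w ᵥ* M 0 = v)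
    (v : Fin (rk 0) → A) (hv : pi0Lin ε v = 0) :
    ∃ w, w ᵥ* M 0 = v := by
  refine (hε v).1 fun p => ?_
  have h1 : ∑ p, ε (v p) = 0 := hv
  have h2 : ∀ q : Fin (rk 0), q = p := fun q => by
    ext
    have := q.2
    have := p.2
    omega
  rw [Finset.sum_eq_single p (fun q _ hq => absurd (h2 q) hq) (fun h => absurd (Finset.mem_univ _) h)]
    at h1
  exact h1

lemma cplx_exactAt (n : ℕ) : (cplx M hM).ExactAt (n + 1) := by
  rw [HomologicalComplex.exactAt_iff' _ (n + 1 + 1) (n + 1) n (by simp) (by simp)]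
  rw [ShortComplex.moduleCat_exact_iff]
  intro x hx
  have h1 : (cplx M hM).d (n + 1) n = dd rk M n := cplx_d hM n
  have h2 : (cplx M hM).d (n + 1 + 1) (n + 1) = dd rk M (n + 1) := cplx_d hM (n + 1)
  change (cplx M hM).d (n + 1) n x = 0 at hx
  change ∃ x₁, (cplx M hM).d (n + 1 + 1) (n + 1) x₁ = x
  rw [h1] at hx
  rw [h2]
  exact (hM n x).1 hx

/-- The resolution. -/
noncomputable def res : ProjectiveResolution (T ε) where
  complex := cplx M hM
  projective n := by
    change Projective (ModuleCat.of A (Fin (rk n) → A))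
    infer_instance
  π := (ChainComplex.toSingle₀Equiv _ _).symm ⟨pi0 ε, by
    rw [cplx_d]; exact dd_pi0 ε hε⟩
  quasiIso := ⟨fun n => by
    cases n
    · rw [ChainComplex.quasiIsoAt₀_iff, ShortComplex.quasiIso_iff_of_zeros']
      · refine (ShortComplex.exact_and_epi_g_iff_of_iso (S₂ := ShortComplex.mk (dd rk M 0) (pi0 ε)
          (dd_pi0 ε hε)) ?_).2 ⟨?_, ?_⟩
        · exact ShortComplex.isoMk (Iso.refl _) (Iso.refl _) (Iso.refl _)
            ((Category.id_comp _).trans
              ((cplx_d hM 0).symm.trans (Category.comp_id _).symm))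
            (by
              refine Eq.trans (Category.id_comp _) (Eq.trans ?_ (Category.comp_id _).symm)
              exact (ChainComplex.toSingle₀Equiv_symm_apply_f_zero (V := ModuleCat.{u} A)
                (C := cplx M hM) (X := T ε) (pi0 ε) (by rw [cplx_d]; exact dd_pi0 ε hε)).symm)
        · rw [ShortComplex.moduleCat_exact_iff]
          intro x hx
          exact pi0_exact ε h0 hε x hx
        · rw [ModuleCat.epi_iff_surjective]
          exact pi0_surj ε h0
      all_goals rfl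
    · rw [quasiIsoAt_iff_exactAt']
      · exact cplx_exactAt hM _
      · apply ChainComplex.exactAt_succ_single_obj⟩

variable (hmin : ∀ i p q, ε (M i p q) = 0)

include hmin in
lemma dd_comp_eq_zero (n : ℕ) (f : P rk n ⟶ T ε) : dd rk M n ≫ f = 0 := by
  refine ModuleCat.hom_ext (LinearMap.ext fun v => ?_)
  change f.hom (v ᵥ* M n) = 0
  have h : ∀ w : Fin (rk n) → A, (∀ q, ε (w q) = 0) → f.hom w = 0 := by
    intro w hw
    have h1 : w = ∑ q, w q • (Pi.single q 1 : Fin (rk n) → A) := by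
      ext j
      simp [Finset.sum_apply, Pi.single_apply]
    rw [h1, map_sum]
    refine Finset.sum_eq_zero fun q _ => ?_
    rw [map_smul]
    change (ε (w q) * ofT ε (f.hom (Pi.single q 1)) : k) = 0
    rw [hw, zero_mul]
  refine h _ fun q => ?_
  simp [Matrix.vecMul, dotProduct, hmin]

include hmin in
lemma res_d_comp (n : ℕ) (f : (res ε h0 hε hM).complex.X n ⟶ T ε) :
    (res ε h0 hε hM).complex.d (n + 1) n ≫ f = 0 := by
  have h1 : (res ε h0 hε hM).complex.d (n + 1) n = dd rk M n := cplx_d hM n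
  rw [h1]
  exact dd_comp_eq_zero ε hmin n f

/-- The map `Hom(P_n, T) → Ext^n(T, T)`. -/
noncomputable def toExt (n : ℕ) :
    ((res ε h0 hε hM).complex.X n ⟶ T ε) →ₗ[k] Ext (T ε) (T ε) n where
  toFun f := (res ε h0 hε hM).extMk f (n + 1) rfl (res_d_comp ε h0 hε hM hmin n f)
  map_add' f g := by rw [ProjectiveResolution.add_extMk]
  map_smul' c f := by
    rw [RingHom.id_apply, Ext.smul_eq_comp_mk₀, ProjectiveResolution.extMk_comp_mk₀]
    simp only [Linear.comp_smul, Category.comp_id]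

lemma toExt_surjective (n : ℕ) : Function.Surjective (toExt ε h0 hε hM hmin n) := by
  intro x
  obtain ⟨f, hf, rfl⟩ := (res ε h0 hε hM).extMk_surjective x (n + 1) rfl
  exact ⟨f, rfl⟩

lemma toExt_injective (n : ℕ) : Function.Injective (toExt ε h0 hε hM hmin (n + 1)) := by
  rw [← LinearMap.ker_eq_bot, LinearMap.ker_eq_bot']
  intro f hf
  obtain ⟨g, hg⟩ := ((res ε h0 hε hM).extMk_eq_zero_iff f (n + 1 + 1) rfl
    (res_d_comp ε h0 hε hM hmin (n + 1) f) n rfl).1 hf
  rw [← hg]
  exact res_d_comp ε h0 hε hM hmin n g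

/-- `Hom(A^n, T) ≃ k^n`. -/
noncomputable def homEquiv (n : ℕ) : (P (A := A) rk n ⟶ T ε) ≃ₗ[k] (Fin (rk n) → k) where
  toFun f := fun p => ofT ε (f.hom (Pi.single p 1))
  map_add' f g := rfl
  map_smul' c f := by
    ext p
    change ε (algebraMap k A c) * _ = _
    rw [AlgHom.commutes]
    rfl
  invFun g := (ModuleCat.ofHom (Fintype.linearCombination A (fun p => toT ε (g p))) :
    ModuleCat.of A (Fin (rk n) → A) ⟶ ModuleCat.of A (T ε))
  left_inv f := by
    refine ModuleCat.hom_ext ?_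
    change Fintype.linearCombination A (fun p => toT ε (ofT ε (f.hom (Pi.single p 1)))) = f.hom
    refine LinearMap.pi_ext' fun p => LinearMap.ext_ring ?_
    rw [LinearMap.comp_apply, LinearMap.comp_apply, LinearMap.single_apply,
      Fintype.linearCombination_apply_single, one_smul, toT_ofT]
  right_inv g := by
    ext p
    change ofT ε (Fintype.linearCombination A (fun p => toT ε (g p)) (Pi.single p 1)) = g p
    rw [Fintype.linearCombination_apply_single, one_smul, ofT_toT]

/-- `Hom(T, T) ≃ k`. -/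
noncomputable def endEquiv : (T ε ⟶ T ε) ≃ₗ[k] k where
  toFun f := ofT ε (f.hom (toT ε 1))
  map_add' f g := rfl
  map_smul' c f := by
    change ε (algebraMap k A c) * _ = _
    rw [AlgHom.commutes]
    rfl
  invFun c := c • 𝟙 (T ε)
  left_inv f := by
    refine ModuleCat.hom_ext (LinearMap.ext fun x => ?_)
    have h1 : x = algebraMap k A (ofT ε x) • toT ε 1 := by
      rw [← toT_mul, AlgHom.commutes]
      change x = toT ε (ofT ε x * 1)
      rw [mul_one, toT_ofT]
    have h2 : f.hom x = algebraMap k A (ofT ε x) • f.hom (toT ε 1) := by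
      conv_lhs => rw [h1]
      rw [map_smul]
    rw [h2]
    change toT ε (ε (algebraMap k A (ofT ε (f.hom (toT ε 1)))) * ofT ε x) =
      toT ε (ε (algebraMap k A (ofT ε x)) * ofT ε (f.hom (toT ε 1)))
    rw [AlgHom.commutes, AlgHom.commutes]
    exact congrArg (toT ε) (mul_comm _ _)
  right_inv c := by
    change ε (algebraMap k A c) * 1 = c
    rw [AlgHom.commutes, mul_one]
    rfl

include h0 hε hM hmin in
/-- The dimension of `Ext^n` is the rank of the `n`-th module of the minimal resolution. -/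
theorem rank_ext (n : ℕ) : Module.rank k (Ext (T ε) (T ε) n) = rk n := by
  rcases n with _ | n
  · rw [(Ext.linearEquiv₀ (R := k) (X := T ε) (Y := T ε)).rank_eq, (endEquiv ε).rank_eq, h0]
    simp
  · have e := LinearEquiv.ofBijective (toExt ε h0 hε hM hmin (n + 1))
      ⟨toExt_injective ε h0 hε hM hmin n, toExt_surjective ε h0 hε hM hmin (n + 1)⟩
    rw [← e.rank_eq]
    have e2 : Module.rank k (P (A := A) rk (n + 1) ⟶ T ε) = rk (n + 1) := by
      rw [(homEquiv ε (n + 1)).rank_eq]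
      simp
    exact e2

end Pool.Agent.TH38.Kos.ExtAux
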