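import Pool.Agent.TH38.KosDefs

/-!
# Quadratic algebras: the kernel of `A^m → A`, `y ↦ ∑ y_i x_i` (Fox derivatives), and the grading
-/

universe u

open CategoryTheory Polynomial

namespace Pool.Agent.TH38.Kos

section Generic

variable (k : Type u) {A : Type u} [Field k] [Ring A] [Algebra k A] {m : ℕ} (x : Fin m → A)
  (N : Submodule A (Fin m → A))

/-- The endomorphism of `(A^m / N) × k` attached to the generator `x_i`. -/
noncomputable def foxEnd (i : Fin m) :
    Module.End k (((Fin m → A) ⧸ N) × k) :=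
  LinearMap.prod
    (LinearMap.coprod
      { toFun := fun q => x i • q
        map_add' := fun x y => smul_add _ _ _
        map_smul' := fun c x => by
          simp only [RingHom.id_apply]
          rw [smul_comm] }
      (LinearMap.toSpanSingleton k _ (N.mkQ (Pi.single i 1))))
    0

lemma foxEnd_apply (i : Fin m) (q : (Fin m → A) ⧸ N) (c : k) :
    foxEnd k x N i (q, c) = (x i • q + c • N.mkQ (Pi.single i 1), 0) := rfl

lemma foxEnd_apply_zero (i : Fin m) (q : (Fin m → A) ⧸ N) :
    foxEnd k x N i (q, 0) = (x i • q, 0) := by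
  rw [foxEnd_apply, zero_smul, add_zero]

lemma foxEnd_apply_one (i : Fin m) :
    foxEnd k x N i (0, 1) = (N.mkQ (Pi.single i 1), 0) := by
  rw [foxEnd_apply, smul_zero, zero_add, one_smul]

variable {k} {N}

lemma fox_rel {r : Matrix (Fin m) (Fin m) k} (hr : ∑ i, ∑ j, r i j • (x i * x j) = 0)
    (hN : (fun j => ∑ i, r i j • x i) ∈ N) :
    ∑ i, ∑ j, r i j • (foxEnd k x N i * foxEnd k x N j) = 0 := by
  refine LinearMap.ext fun ⟨q, c⟩ => ?_
  have h1 : ∀ i j, (foxEnd k x N i * foxEnd k x N j) (q, c) =
      ((x i * x j) • q + c • N.mkQ (Pi.single j (x i)), 0) := by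
    intro i j
    rw [Module.End.mul_apply, foxEnd_apply, foxEnd_apply]
    have : x i • (Pi.single j 1 : Fin m → A) = Pi.single j (x i) := by
      ext l
      simp [Pi.single_apply]
    rw [← this, map_smul]
    simp only [zero_smul, add_zero, smul_add, smul_smul, smul_comm (x i) c]
  have h3 : (fun j => ∑ i, r i j • x i) =
      ∑ i, ∑ j, r i j • (Pi.single j (x i) : Fin m → A) := by
    ext l
    simp [Finset.sum_apply, Pi.single_apply]
  have h2 : (∑ i, ∑ j, r i j • (foxEnd k x N i * foxEnd k x N j)) (q, c) =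
      ((∑ i, ∑ j, r i j • (x i * x j)) • q +
        c • N.mkQ (fun j => ∑ i, r i j • x i), 0) := by
    simp only [LinearMap.sum_apply, LinearMap.smul_apply, h1]
    refine Prod.ext ?_ ?_
    · simp only [Prod.fst_sum, Prod.smul_fst]
      rw [h3]
      have h5 : ∀ a : k, ∀ v : Fin m → A, N.mkQ (a • v) = a • N.mkQ v := fun a v => rfl
      simp only [map_sum, smul_add, Finset.sum_add_distrib, Finset.smul_sum, Finset.sum_smul, h5,
        smul_assoc, smul_comm c]
    · simp only [Prod.snd_sum, Prod.smul_snd, smul_zero, Finset.sum_const_zero]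
  rw [h2, hr, zero_smul, zero_add]
  have h4 : N.mkQ (fun j => ∑ i, r i j • x i) = 0 := by
    simpa using hN
  rw [h4, smul_zero]
  rfl

end Generic

variable {k : Type u} [Field k] {m : ℕ} {R : Set (Matrix (Fin m) (Fin m) k)}

lemma gen_rel {r : Matrix (Fin m) (Fin m) k} (hr : r ∈ R) :
    ∑ i, ∑ j, r i j • (gen k R i * gen k R j) = 0 := by
  have h : RingQuot.mkAlgHom k (quadRel k R) (quadForm k r) = RingQuot.mkAlgHom k (quadRel k R) 0 :=
    RingQuot.mkAlgHom_rel k ⟨r, hr, rfl, rfl⟩
  simpa [quadForm, gen] using h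

@[simp] lemma aug_gen (i : Fin m) : aug k R (gen k R i) = 0 := by
  simp [aug, gen]

/-- Induction principle for quadratic algebras. -/
lemma quad_induction {P : QuadAlg k R → Prop}
    (h0 : ∀ c : k, P (algebraMap k _ c)) (h1 : ∀ i, P (gen k R i))
    (hm : ∀ x y, P x → P y → P (x * y)) (ha : ∀ x y, P x → P y → P (x + y))
    (x : QuadAlg k R) : P x := by
  obtain ⟨p, rfl⟩ := RingQuot.mkAlgHom_surjective k (quadRel k R) x
  induction p using FreeAlgebra.induction with
  | grade0 c => simpa using h0 c
  | grade1 i => exact h1 i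
  | mul p q hp hq => simpa using hm _ _ hp hq
  | add p q hp hq => simpa using ha _ _ hp hq

/-- Every element is its augmentation plus an element of the left ideal generated by the
generators. -/
lemma exists_decomp (y : QuadAlg k R) :
    ∃ w : Fin m → QuadAlg k R, y = aug k R y • (1 : QuadAlg k R) + ∑ i, w i * gen k R i := by
  induction y using quad_induction with
  | h0 c => exact ⟨0, by simp [Algebra.algebraMap_eq_smul_one]⟩
  | h1 i => exact ⟨Pi.single i 1, by simp [Pi.single_apply]⟩
  | ha x y hx hy =>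
    obtain ⟨v, hv⟩ := hx
    obtain ⟨w, hw⟩ := hy
    refine ⟨v + w, ?_⟩
    simp only [Pi.add_apply, add_mul, Finset.sum_add_distrib, map_add, add_smul]
    nth_rewrite 1 [hv, hw]
    abel
  | hm x y hx hy =>
    obtain ⟨v, hv⟩ := hx
    obtain ⟨w, hw⟩ := hy
    refine ⟨fun i => x * w i + (aug k R y) • v i, ?_⟩
    calc x * y = x * (aug k R y • (1 : QuadAlg k R) + ∑ i, w i * gen k R i) := by rw [← hw]
      _ = aug k R y • x + ∑ i, x * w i * gen k R i := by
        simp [mul_add, Finset.mul_sum, mul_assoc]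
      _ = aug k R y • (aug k R x • (1 : QuadAlg k R) + ∑ i, v i * gen k R i)
          + ∑ i, x * w i * gen k R i := by rw [← hv]
      _ = _ := by
        simp only [add_mul, Finset.sum_add_distrib, map_mul, smul_add, Finset.smul_sum,
          smul_mul_assoc, smul_smul, mul_comm (aug k R y)]
        abel

section Fox

variable {N : Submodule (QuadAlg k R) (Fin m → QuadAlg k R)}

/-- The representation of `A` on `(A^m / N) × k`. -/
noncomputable def foxRep (hN : ∀ r ∈ R, (fun j => ∑ i, r i j • gen k R i) ∈ N) :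
    QuadAlg k R →ₐ[k] Module.End k (((Fin m → QuadAlg k R) ⧸ N) × k) :=
  RingQuot.liftAlgHom k ⟨FreeAlgebra.lift k (foxEnd k (gen k R) N), by
    rintro p q ⟨r, hr, rfl, rfl⟩
    simpa [quadForm] using fox_rel (gen k R) (gen_rel hr) (hN r hr)⟩

@[simp] lemma foxRep_gen (hN : ∀ r ∈ R, (fun j => ∑ i, r i j • gen k R i) ∈ N) (i : Fin m) :
    foxRep hN (gen k R i) = foxEnd k (gen k R) N i := by
  simp [foxRep, gen]

lemma foxRep_apply (hN : ∀ r ∈ R, (fun j => ∑ i, r i j • gen k R i) ∈ N) (y : QuadAlg k R) :
    ∀ q : (Fin m → QuadAlg k R) ⧸ N, foxRep hN y (q, 0) = (y • q, 0) := by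
  induction y using quad_induction with
  | h0 c =>
    intro q
    rw [AlgHom.commutes, algebraMap_smul]
    simp [Module.algebraMap_end_apply]
  | h1 i =>
    intro q
    rw [foxRep_gen, foxEnd_apply_zero]
  | hm x y hx hy =>
    intro q
    rw [map_mul, Module.End.mul_apply, hy, hx, mul_smul]
  | ha x y hx hy =>
    intro q
    rw [map_add, LinearMap.add_apply, hx, hy, add_smul]
    simp

/-- **The kernel of `A^m → A`, `y ↦ ∑ y_i x_i`** is the left submodule generated by the rows of
the relations. -/
lemma mem_of_sum_eq_zero (hN : ∀ r ∈ R, (fun j => ∑ i, r i j • gen k R i) ∈ N)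
    {y : Fin m → QuadAlg k R} (hy : ∑ i, y i * gen k R i = 0) : y ∈ N := by
  have h1 : ∀ i, foxRep hN (y i * gen k R i) (0, 1) = (N.mkQ (Pi.single i (y i)), 0) := by
    intro i
    rw [map_mul, Module.End.mul_apply, foxRep_gen, foxEnd_apply_one, foxRep_apply, ← map_smul]
    congr 2
    ext l
    simp [Pi.single_apply]
  have h2 : foxRep hN (∑ i, y i * gen k R i) (0, 1) = (N.mkQ y, 0) := by
    rw [map_sum, LinearMap.sum_apply]
    simp only [h1]
    refine Prod.ext ?_ ?_
    · simp only [Prod.fst_sum, ← map_sum]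
      congr 1
      exact Finset.univ_sum_single y
    · simp only [Prod.snd_sum, Finset.sum_const_zero]
  rw [hy, map_zero, LinearMap.zero_apply] at h2
  have h3 := congrArg Prod.fst h2
  simpa using h3.symm

end Fox

section Grading

/-- The grading of `A`, as an algebra map `A → A[X]`, `x_i ↦ x_i X`. -/
noncomputable def grade : QuadAlg k R →ₐ[k] (QuadAlg k R)[X] :=
  RingQuot.liftAlgHom k ⟨FreeAlgebra.lift k (fun i => monomial 1 (gen k R i)), by
    rintro p q ⟨r, hr, rfl, rfl⟩
    have h : ∑ i, ∑ j, r i j • (monomial 2 (gen k R i * gen k R j)) =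
        monomial 2 (∑ i, ∑ j, r i j • (gen k R i * gen k R j)) := by
      simp only [map_sum, smul_monomial]
    simp only [quadForm, map_sum, map_smul, map_mul, FreeAlgebra.lift_ι_apply, map_zero,
      monomial_mul_monomial]
    rw [h, gen_rel hr, map_zero]⟩

@[simp] lemma grade_gen (i : Fin m) : grade (gen k R i) = monomial 1 (gen k R i) := by
  simp [grade, gen]

/-- The component of degree `n`. -/
noncomputable def comp (n : ℕ) (y : QuadAlg k R) : QuadAlg k R := (grade y).coeff n

lemma grade_eval (y : QuadAlg k R) :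
    eval₂RingHom' (RingHom.id (QuadAlg k R)) 1 (fun a => Commute.one_right a) (grade y) = y := by
  induction y using quad_induction with
  | h0 c =>
    rw [AlgHom.commutes]
    simp [Polynomial.algebraMap_apply]
  | h1 i => simp
  | hm x y hx hy => rw [map_mul, map_mul, hx, hy]
  | ha x y hx hy => rw [map_add, map_add, hx, hy]

lemma eq_zero_of_comp {y : QuadAlg k R} (h : ∀ n, comp n y = 0) : y = 0 := by
  have h1 : grade y = 0 := by
    ext n
    simpa [comp] using h n
  rw [← grade_eval y, h1, map_zero]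

@[simp] lemma comp_zero (n : ℕ) : comp n (0 : QuadAlg k R) = 0 := by simp [comp]

@[simp] lemma comp_add (n : ℕ) (x y : QuadAlg k R) : comp n (x + y) = comp n x + comp n y := by
  simp [comp]

@[simp] lemma comp_sub (n : ℕ) (x y : QuadAlg k R) : comp n (x - y) = comp n x - comp n y := by
  simp [comp]

@[simp] lemma comp_neg (n : ℕ) (x : QuadAlg k R) : comp n (-x) = -comp n x := by
  simp [comp]

@[simp] lemma comp_mul_gen (n : ℕ) (x : QuadAlg k R) (i : Fin m) :
    comp (n + 1) (x * gen k R i) = comp n x * gen k R i := by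
  simp only [comp, map_mul, grade_gen]
  rw [← C_mul_X_eq_monomial, ← mul_assoc, coeff_mul_X, coeff_mul_C]

@[simp] lemma comp_zero_mul_gen (x : QuadAlg k R) (i : Fin m) :
    comp 0 (x * gen k R i) = 0 := by
  simp only [comp, map_mul, grade_gen]
  rw [← C_mul_X_eq_monomial, ← mul_assoc, coeff_mul_X_zero]

/-- `y` is homogeneous of degree `n`. -/
def IsHom (n : ℕ) (y : QuadAlg k R) : Prop := grade y = monomial n y

lemma IsHom.comp_eq {n : ℕ} {y : QuadAlg k R} (h : IsHom n y) : comp n y = y := by
  rw [comp, h, coeff_monomial, if_pos rfl]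

lemma isHom_zero (n : ℕ) : IsHom n (0 : QuadAlg k R) := by simp [IsHom]

lemma IsHom.add {n : ℕ} {x y : QuadAlg k R} (hx : IsHom n x) (hy : IsHom n y) :
    IsHom n (x + y) := by
  unfold IsHom at *
  rw [map_add, map_add, hx, hy]

lemma IsHom.neg {n : ℕ} {x : QuadAlg k R} (hx : IsHom n x) : IsHom n (-x) := by
  unfold IsHom at *
  rw [map_neg, map_neg, hx]

lemma IsHom.sub {n : ℕ} {x y : QuadAlg k R} (hx : IsHom n x) (hy : IsHom n y) :
    IsHom n (x - y) := by
  rw [sub_eq_add_neg]
  exact hx.add hy.neg

lemma isHom_comp (n : ℕ) (y : QuadAlg k R) : IsHom n (comp n y) := by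
  induction y using quad_induction generalizing n with
  | h0 c =>
    unfold IsHom comp
    rw [AlgHom.commutes, Polynomial.algebraMap_apply, coeff_C]
    split_ifs with h
    · subst h
      rw [AlgHom.commutes, Polynomial.algebraMap_apply]
      rfl
    · simp
  | h1 i =>
    unfold IsHom comp
    rw [grade_gen, coeff_monomial]
    split_ifs with h
    · subst h
      rw [grade_gen]
    · simp
  | ha x y hx hy =>
    rw [comp_add]
    exact (hx n).add (hy n)
  | hm x y hx hy =>
    unfold IsHom at *
    have h : comp n (x * y) = ∑ p ∈ Finset.HasAntidiagonal.antidiagonal n, comp p.1 x * comp p.2 y := by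
      simp only [comp, map_mul, coeff_mul]
    rw [h, map_sum, map_sum]
    refine Finset.sum_congr rfl fun p hp => ?_
    rw [map_mul, hx, hy, monomial_mul_monomial, Finset.HasAntidiagonal.mem_antidiagonal.1 hp]

end Grading

end Pool.Agent.TH38.Kos
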