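import Mathlib

/-!
# Quadratic algebras, Koszulness and Betti numbers: definitions

`QuadAlg k R` is the quadratic algebra `T(V)/(R)` with `V = k^m` (basis `x_0, …, x_{m-1}`) and `R`
a set of elements of `V ⊗ V`, each given by its `m × m` matrix of coefficients.
-/

universe u

open CategoryTheory

namespace Pool.Agent.TH38.Kos

variable (k : Type u) [Field k] {m : ℕ}

/-- The element `∑ i j, r i j • x_i x_j` of the free algebra on `x_0, …, x_{m-1}`. -/
noncomputable def quadForm (r : Matrix (Fin m) (Fin m) k) : FreeAlgebra k (Fin m) :=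
  ∑ i, ∑ j, r i j • (FreeAlgebra.ι k i * FreeAlgebra.ι k j)

variable (R : Set (Matrix (Fin m) (Fin m) k))

/-- The relations `quadForm r = 0`, for `r ∈ R`. -/
def quadRel : FreeAlgebra k (Fin m) → FreeAlgebra k (Fin m) → Prop :=
  fun p q => ∃ r ∈ R, p = quadForm k r ∧ q = 0

/-- The quadratic algebra on `x_0, …, x_{m-1}` with the relations `quadForm r = 0`, `r ∈ R`:
the quotient of the free algebra by the two-sided ideal generated by these elements. -/
abbrev QuadAlg : Type u := RingQuot (quadRel k R)

/-- The generator `x_i` of the quadratic algebra. -/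
noncomputable def gen (i : Fin m) : QuadAlg k R :=
  RingQuot.mkAlgHom k (quadRel k R) (FreeAlgebra.ι k i)

/-- The degree one component `V = A_1` : the span of the generators. -/
noncomputable def degOne : Submodule k (QuadAlg k R) := Submodule.span k (Set.range (gen k R))

/-- The augmentation `A → k`, sending every generator to `0`. -/
noncomputable def aug : QuadAlg k R →ₐ[k] k :=
  RingQuot.liftAlgHom k ⟨FreeAlgebra.lift k (fun _ => (0 : k)), by
    rintro p q ⟨r, -, rfl, rfl⟩
    simp [quadForm]⟩

/-- The trivial left module `k` : the generators act by `0`. -/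
noncomputable def triv : ModuleCat.{u} (QuadAlg k R) :=
  (ModuleCat.restrictScalars (aug k R).toRingHom).obj (ModuleCat.of k k)

/-- `ExtDim k R i b` : the `k`-vector space `Ext^i_A(k, k)` has dimension `b`. -/
def ExtDim (i b : ℕ) : Prop := Module.rank k (Abelian.Ext (triv k R) (triv k R) i) = b

open Matrix in
/-- The quadratic algebra `A` is Koszul: the trivial module has a linear graded free resolution
`… → A(-2)^{rk 2} → A(-1)^{rk 1} → A → k → 0`, that is, a free resolution by left modules
`A^{rk i}` of row vectors whose differentials `v ↦ v ᵥ* M i` are given by matrices with all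
entries in the degree one component `A_1`. -/
def IsKoszul : Prop :=
  ∃ (rk : ℕ → ℕ) (M : (i : ℕ) → Matrix (Fin (rk (i + 1))) (Fin (rk i)) (QuadAlg k R)),
    rk 0 = 1 ∧
    (∀ i p q, M i p q ∈ degOne k R) ∧
    (∀ v : Fin (rk 0) → QuadAlg k R, (∀ p, aug k R (v p) = 0) ↔ ∃ w, w ᵥ* M 0 = v) ∧
    (∀ i (v : Fin (rk (i + 1)) → QuadAlg k R), v ᵥ* M i = 0 ↔ ∃ w, w ᵥ* M (i + 1) = v)

end Pool.Agent.TH38.Kos
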