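import Pool.Agent.TH38.KosBasic

/-!
# The quadratic algebra `k⟨a,b,c,d⟩ / (ua, ab, ac, bc, bd, cd, d(a+b+c+d))`, `u = a+b+d`
-/

universe u

open CategoryTheory Matrix

namespace Pool.Agent.TH38.Kos

/-- The coefficient matrices of the seven relations
`(a+b+d)a, ab, ac, bc, bd, cd, d(a+b+c+d)`. -/
def relMat (k : Type u) [Field k] : Fin 7 → Matrix (Fin 4) (Fin 4) k :=
  ![!![1, 0, 0, 0; 1, 0, 0, 0; 0, 0, 0, 0; 1, 0, 0, 0],
    !![0, 1, 0, 0; 0, 0, 0, 0; 0, 0, 0, 0; 0, 0, 0, 0],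
    !![0, 0, 1, 0; 0, 0, 0, 0; 0, 0, 0, 0; 0, 0, 0, 0],
    !![0, 0, 0, 0; 0, 0, 1, 0; 0, 0, 0, 0; 0, 0, 0, 0],
    !![0, 0, 0, 0; 0, 0, 0, 1; 0, 0, 0, 0; 0, 0, 0, 0],
    !![0, 0, 0, 0; 0, 0, 0, 0; 0, 0, 0, 1; 0, 0, 0, 0],
    !![0, 0, 0, 0; 0, 0, 0, 0; 0, 0, 0, 0; 1, 1, 1, 1]]

/-- The set of the seven relations. -/
def exRel (k : Type u) [Field k] : Set (Matrix (Fin 4) (Fin 4) k) := Set.range (relMat k)

/-- The example. -/
abbrev Ex (k : Type u) [Field k] : Type u := QuadAlg k (exRel k)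

section

variable (k : Type u) [Field k]

/-- the generator `a` -/
noncomputable def ga : Ex k := gen k (exRel k) 0
/-- the generator `b` -/
noncomputable def gb : Ex k := gen k (exRel k) 1
/-- the generator `c` -/
noncomputable def gc : Ex k := gen k (exRel k) 2
/-- the generator `d` -/
noncomputable def gd : Ex k := gen k (exRel k) 3

lemma rel_ua : (ga k + gb k + gd k) * ga k = 0 := by
  have h := gen_rel (k := k) (R := exRel k) ⟨0, rfl⟩
  simpa [relMat, Fin.sum_univ_four, ga, gb, gd, add_mul] using h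

lemma rel_ab : ga k * gb k = 0 := by
  have h := gen_rel (k := k) (R := exRel k) ⟨1, rfl⟩
  simpa [relMat, Fin.sum_univ_four, ga, gb] using h

lemma rel_ac : ga k * gc k = 0 := by
  have h := gen_rel (k := k) (R := exRel k) ⟨2, rfl⟩
  simpa [relMat, Fin.sum_univ_four, ga, gc] using h

lemma rel_bc : gb k * gc k = 0 := by
  have h := gen_rel (k := k) (R := exRel k) ⟨3, rfl⟩
  simpa [relMat, Fin.sum_univ_four, gb, gc] using h

lemma rel_bd : gb k * gd k = 0 := by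
  have h := gen_rel (k := k) (R := exRel k) ⟨4, rfl⟩
  simpa [relMat, Fin.sum_univ_four, gb, gd] using h

lemma rel_cd : gc k * gd k = 0 := by
  have h := gen_rel (k := k) (R := exRel k) ⟨5, rfl⟩
  simpa [relMat, Fin.sum_univ_four, gc, gd] using h

lemma rel_d : gd k * (ga k + gb k + gc k + gd k) = 0 := by
  have h := gen_rel (k := k) (R := exRel k) ⟨6, rfl⟩
  simpa [relMat, Fin.sum_univ_four, ga, gb, gc, gd, mul_add, ← add_assoc] using h

/-- The differential `A^7 → A^4`. -/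
noncomputable def mat1 : Matrix (Fin 7) (Fin 4) (Ex k) :=
  !![ga k + gb k + gd k, 0, 0, 0;
     0, ga k, 0, 0;
     0, 0, ga k, 0;
     0, 0, gb k, 0;
     0, 0, 0, gb k;
     0, 0, 0, gc k;
     gd k, gd k, gd k, gd k]

lemma rows_mem : ∀ r ∈ exRel k, (fun j => ∑ i, r i j • gen k (exRel k) i) ∈
    LinearMap.range (mat1 k).vecMulLinear := by
  rintro _ ⟨j, rfl⟩
  refine ⟨Pi.single j 1, ?_⟩
  rw [Matrix.vecMulLinear_apply, Matrix.single_one_vecMul]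
  ext i
  fin_cases j <;> fin_cases i <;>
    simp [relMat, mat1, Matrix.row, Fin.sum_univ_four, ga, gb, gc, gd]

variable {k}

/-- The formal description of the kernel of `A^4 → A`. -/
lemma ker_zero {y₁ y₂ y₃ y₄ : Ex k} (h : y₁ * ga k + y₂ * gb k + y₃ * gc k + y₄ * gd k = 0) :
    ∃ z₁ z₂ z₃ z₄ z₅ z₆ t : Ex k,
      y₁ = z₁ * (ga k + gb k + gd k) + t * gd k ∧
      y₂ = z₂ * ga k + t * gd k ∧
      y₃ = z₃ * ga k + z₄ * gb k + t * gd k ∧
      y₄ = z₅ * gb k + z₆ * gc k + t * gd k := by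
  have h1 : (![y₁, y₂, y₃, y₄] : Fin 4 → Ex k) ∈ LinearMap.range (mat1 k).vecMulLinear := by
    refine mem_of_sum_eq_zero (rows_mem k) ?_
    simpa [Fin.sum_univ_four, ga, gb, gc, gd] using h
  obtain ⟨z, hz⟩ := h1
  rw [Matrix.vecMulLinear_apply] at hz
  refine ⟨z 0, z 1, z 2, z 3, z 4, z 5, z 6, ?_, ?_, ?_, ?_⟩
  · have := congrFun hz 0
    simpa [Matrix.vecMul, dotProduct, Fin.sum_univ_seven, mat1] using this.symm
  · have := congrFun hz 1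
    simpa [Matrix.vecMul, dotProduct, Fin.sum_univ_seven, mat1] using this.symm
  · have := congrFun hz 2
    simpa [Matrix.vecMul, dotProduct, Fin.sum_univ_seven, mat1] using this.symm
  · have := congrFun hz 3
    simpa [Matrix.vecMul, dotProduct, Fin.sum_univ_seven, mat1] using this.symm

lemma comp_ga (n : ℕ) (x : Ex k) : comp (n + 1) (x * ga k) = comp n x * ga k :=
  comp_mul_gen n x 0
lemma comp_gb (n : ℕ) (x : Ex k) : comp (n + 1) (x * gb k) = comp n x * gb k :=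
  comp_mul_gen n x 1
lemma comp_gc (n : ℕ) (x : Ex k) : comp (n + 1) (x * gc k) = comp n x * gc k :=
  comp_mul_gen n x 2
lemma comp_gd (n : ℕ) (x : Ex k) : comp (n + 1) (x * gd k) = comp n x * gd k :=
  comp_mul_gen n x 3
lemma comp0_ga (x : Ex k) : comp 0 (x * ga k) = 0 := comp_zero_mul_gen x 0
lemma comp0_gb (x : Ex k) : comp 0 (x * gb k) = 0 := comp_zero_mul_gen x 1
lemma comp0_gc (x : Ex k) : comp 0 (x * gc k) = 0 := comp_zero_mul_gen x 2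
lemma comp0_gd (x : Ex k) : comp 0 (x * gd k) = 0 := comp_zero_mul_gen x 3

lemma ker_hom_zero {y₁ y₂ y₃ y₄ : Ex k} (h₁ : IsHom 0 y₁) (h₂ : IsHom 0 y₂) (h₃ : IsHom 0 y₃)
    (h₄ : IsHom 0 y₄) (h : y₁ * ga k + y₂ * gb k + y₃ * gc k + y₄ * gd k = 0) :
    y₁ = 0 ∧ y₂ = 0 ∧ y₃ = 0 ∧ y₄ = 0 := by
  obtain ⟨z₁, z₂, z₃, z₄, z₅, z₆, t, e₁, e₂, e₃, e₄⟩ := ker_zero h
  refine ⟨?_, ?_, ?_, ?_⟩
  · rw [← h₁.comp_eq, e₁]; simp [mul_add, comp0_ga, comp0_gb, comp0_gd]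
  · rw [← h₂.comp_eq, e₂]; simp [comp0_ga, comp0_gd]
  · rw [← h₃.comp_eq, e₃]; simp [comp0_ga, comp0_gb, comp0_gd]
  · rw [← h₄.comp_eq, e₄]; simp [comp0_gb, comp0_gc, comp0_gd]

lemma ker_hom_succ {n : ℕ} {y₁ y₂ y₃ y₄ : Ex k} (h₁ : IsHom (n + 1) y₁) (h₂ : IsHom (n + 1) y₂)
    (h₃ : IsHom (n + 1) y₃) (h₄ : IsHom (n + 1) y₄)
    (h : y₁ * ga k + y₂ * gb k + y₃ * gc k + y₄ * gd k = 0) :
    ∃ z₁ z₂ z₃ z₄ z₅ z₆ t : Ex k,
      (IsHom n z₁ ∧ IsHom n z₂ ∧ IsHom n z₃ ∧ IsHom n z₄ ∧ IsHom n z₅ ∧ IsHom n z₆ ∧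
        IsHom n t) ∧
      y₁ = z₁ * (ga k + gb k + gd k) + t * gd k ∧
      y₂ = z₂ * ga k + t * gd k ∧
      y₃ = z₃ * ga k + z₄ * gb k + t * gd k ∧
      y₄ = z₅ * gb k + z₆ * gc k + t * gd k := by
  obtain ⟨z₁, z₂, z₃, z₄, z₅, z₆, t, e₁, e₂, e₃, e₄⟩ := ker_zero h
  refine ⟨comp n z₁, comp n z₂, comp n z₃, comp n z₄, comp n z₅, comp n z₆, comp n t,
    ⟨isHom_comp _ _, isHom_comp _ _, isHom_comp _ _, isHom_comp _ _, isHom_comp _ _,
      isHom_comp _ _, isHom_comp _ _⟩, ?_, ?_, ?_, ?_⟩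
  · rw [← h₁.comp_eq, e₁]; simp only [mul_add, comp_add, comp_ga, comp_gb, comp_gd]
  · rw [← h₂.comp_eq, e₂]; simp only [comp_add, comp_ga, comp_gd]
  · rw [← h₃.comp_eq, e₃]; simp only [comp_add, comp_ga, comp_gb, comp_gd]
  · rw [← h₄.comp_eq, e₄]; simp only [comp_add, comp_gb, comp_gc, comp_gd]

/-- Lemma D, homogeneous form: `Ad ∩ (Aa + Ab) = 0`. -/
lemma lemD_hom (n : ℕ) : ∀ w p q : Ex k, IsHom n w → IsHom n p → IsHom n q →
    w * gd k + p * ga k + q * gb k = 0 → w * gd k = 0 := by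
  induction n with
  | zero =>
    intro w p q hw hp hq h
    obtain ⟨-, -, -, h4⟩ := ker_hom_zero hp hq (isHom_zero 0) hw
      (by rw [zero_mul, add_zero, ← h]; abel)
    rw [h4, zero_mul]
  | succ n ih =>
    intro w p q hw hp hq h
    obtain ⟨z₁, z₂, z₃, z₄, z₅, z₆, t, ⟨-, -, g₃, g₄, -, -, gt⟩, -, -, e₃, e₄⟩ :=
      ker_hom_succ hp hq (isHom_zero _) hw (by rw [zero_mul, add_zero, ← h]; abel)
    have ht : t * gd k = 0 := ih t z₃ z₄ gt g₃ g₄ (by rw [e₃]; abel)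
    rw [e₄, ht, add_zero, add_mul, mul_assoc, mul_assoc, rel_bd, rel_cd, mul_zero, mul_zero,
      add_zero]

private lemma aux_E {A : Type*} [Ring A] {x z₂ z₅ z₆ a b c : A} (h : x = z₂ * a)
    (h' : x = z₅ * b + z₆ * c) : z₂ * a + (-z₅) * b + (-z₆) * c = 0 := by
  rw [← h, h', neg_mul, neg_mul]; abel

private lemma aux_K {A : Type*} [Ring A] {z p₁ p₂ v a : A} (h : z = p₁ * v)
    (h' : z = p₂ * a) : p₁ * v + (-p₂) * a = 0 := by
  rw [← h, h', neg_mul]; abel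

/-- The joint induction. -/
lemma joint_hom (n : ℕ) :
    (∀ x y : Ex k, IsHom n x → IsHom n y →
      x * (ga k + gb k + gd k) + y * ga k = 0 → x = 0) ∧
    (∀ y₁ y₂ y₃ : Ex k, IsHom n y₁ → IsHom n y₂ → IsHom n y₃ →
      y₁ * ga k + y₂ * gb k + y₃ * gc k = 0 → y₁ * ga k = 0) ∧
    (∀ w p q : Ex k, IsHom n w → IsHom n p → IsHom n q →
      w * gd k + p * gb k + q * gc k = 0 → w * gd k = 0) := by
  induction n using Nat.strong_induction_on with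
  | _ n ih =>
  refine ⟨?_, ?_, ?_⟩
  · -- E
    intro x y hx hy h
    have h' : (x + y) * ga k + x * gb k + 0 * gc k + x * gd k = 0 := by
      rw [zero_mul, add_zero, ← h, mul_add, mul_add, add_mul]; abel
    rcases n with _ | n
    · exact (ker_hom_zero (hx.add hy) hx (isHom_zero 0) hx h').2.1
    · obtain ⟨z₁, z₂, z₃, z₄, z₅, z₆, t, ⟨-, g₂, g₃, g₄, g₅, g₆, gt⟩, -, e₂, e₃, e₄⟩ :=
        ker_hom_succ (hx.add hy) hx (isHom_zero _) hx h'
      have ht : t * gd k = 0 := lemD_hom n t z₃ z₄ gt g₃ g₄ (by rw [e₃]; abel)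
      rw [ht, add_zero] at e₂ e₄
      have h2 : z₂ * ga k + (-z₅) * gb k + (-z₆) * gc k = 0 := aux_E e₂ e₄
      rw [e₂]
      exact (ih n (Nat.lt_succ_self n)).2.1 z₂ (-z₅) (-z₆) g₂ g₅.neg g₆.neg h2
  · -- F
    intro y₁ y₂ y₃ h₁ h₂ h₃ h
    have h' : y₁ * ga k + y₂ * gb k + y₃ * gc k + 0 * gd k = 0 := by
      rw [zero_mul, add_zero, h]
    rcases n with _ | n
    · rw [(ker_hom_zero h₁ h₂ h₃ (isHom_zero 0) h').1, zero_mul]
    · obtain ⟨z₁, z₂, z₃, z₄, z₅, z₆, t, ⟨-, -, -, -, g₅, g₆, gt⟩, e₁, -, -, e₄⟩ :=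
        ker_hom_succ h₁ h₂ h₃ (isHom_zero _) h'
      have ht : t * gd k = 0 :=
        (ih n (Nat.lt_succ_self n)).2.2 t z₅ z₆ gt g₅ g₆ (by rw [e₄]; abel)
      rw [e₁, ht, add_zero, mul_assoc, rel_ua, mul_zero]
  · -- K
    intro w p q hw hp hq h
    have h' : 0 * ga k + p * gb k + q * gc k + w * gd k = 0 := by
      rw [zero_mul, zero_add, ← h]; abel
    rcases n with _ | n
    · rw [(ker_hom_zero (isHom_zero 0) hp hq hw h').2.2.2, zero_mul]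
    · obtain ⟨z₁, z₂, z₃, z₄, z₅, z₆, t, ⟨g₁, -, -, -, -, -, gt⟩, e₁, -, -, e₄⟩ :=
        ker_hom_succ (isHom_zero _) hp hq hw h'
      -- `z₁ u + t d = 0`
      have h1 : (z₁ + t) * gd k + z₁ * ga k + z₁ * gb k = 0 := by
        rw [e₁, mul_add, mul_add, add_mul]; abel
      have h2 : (z₁ + t) * gd k = 0 := lemD_hom n _ _ _ (g₁.add gt) g₁ g₁ h1
      have h3 : z₁ * ga k + z₁ * gb k + 0 * gc k + 0 * gd k = 0 := by
        rw [h2] at h1
        rw [zero_mul, zero_mul, add_zero, add_zero, ← h1]; abel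
      have hz : z₁ = 0 := by
        rcases n with _ | n
        · exact (ker_hom_zero g₁ g₁ (isHom_zero 0) (isHom_zero 0) h3).1
        · obtain ⟨p₁, p₂, p₃, p₄, p₅, p₆, s, ⟨f₁, f₂, f₃, f₄, -, -, fs⟩, i₁, i₂, i₃, -⟩ :=
            ker_hom_succ g₁ g₁ (isHom_zero _) (isHom_zero _) h3
          have hs : s * gd k = 0 := lemD_hom n s p₃ p₄ fs f₃ f₄ (by rw [i₃]; abel)
          rw [hs, add_zero] at i₁ i₂
          have h4 : p₁ * (ga k + gb k + gd k) + (-p₂) * ga k = 0 := aux_K i₁ i₂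
          have h5 := (ih n (by omega)).1 p₁ (-p₂) f₁ f₂.neg h4
          rw [i₁, h5, zero_mul]
      rw [hz, zero_mul, zero_add] at e₁
      rw [e₄, ← e₁, add_zero, add_mul, mul_assoc, mul_assoc, rel_bd, rel_cd, mul_zero, mul_zero,
        add_zero]

lemma lemD {w p q : Ex k} (h : w * gd k + p * ga k + q * gb k = 0) : w * gd k = 0 := by
  refine eq_zero_of_comp fun n => ?_
  rcases n with _ | n
  · exact comp0_gd w
  · rw [comp_gd]
    have := congrArg (comp (n + 1)) h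
    rw [comp_add, comp_add, comp_gd, comp_ga, comp_gb, comp_zero] at this
    exact lemD_hom n _ _ _ (isHom_comp _ _) (isHom_comp _ _) (isHom_comp _ _) this

lemma lemE {x y : Ex k} (h : x * (ga k + gb k + gd k) + y * ga k = 0) : x = 0 := by
  refine eq_zero_of_comp fun n => ?_
  have := congrArg (comp (n + 1)) h
  rw [mul_add, mul_add, comp_add, comp_add, comp_add, comp_gd, comp_ga, comp_ga, comp_gb,
    comp_zero, ← mul_add, ← mul_add] at this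
  exact (joint_hom n).1 _ _ (isHom_comp _ _) (isHom_comp _ _) this

lemma lemK {w p q : Ex k} (h : w * gd k + p * gb k + q * gc k = 0) : w * gd k = 0 := by
  refine eq_zero_of_comp fun n => ?_
  rcases n with _ | n
  · exact comp0_gd w
  · rw [comp_gd]
    have := congrArg (comp (n + 1)) h
    rw [comp_add, comp_add, comp_gd, comp_gb, comp_gc, comp_zero] at this
    exact (joint_hom n).2.2 _ _ _ (isHom_comp _ _) (isHom_comp _ _) (isHom_comp _ _) this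

lemma kerU {z : Ex k} (h : z * (ga k + gb k + gd k) = 0) : z = 0 :=
  lemE (y := 0) (by rw [h, zero_mul, add_zero])

lemma kerAB {z₁ z₂ : Ex k} (h : z₁ * ga k + z₂ * gb k = 0) :
    (∃ w, w * (ga k + gb k + gd k) = z₁) ∧ ∃ w, w * ga k = z₂ := by
  obtain ⟨p₁, p₂, p₃, p₄, p₅, p₆, t, e₁, e₂, e₃, -⟩ :=
    ker_zero (y₁ := z₁) (y₂ := z₂) (y₃ := 0) (y₄ := 0)
      (by rw [zero_mul, zero_mul, add_zero, add_zero, h])
  have ht : t * gd k = 0 := lemD (p := p₃) (q := p₄) (by rw [e₃]; abel)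
  exact ⟨⟨p₁, by rw [e₁, ht, add_zero]⟩, p₂, by rw [e₂, ht, add_zero]⟩

lemma kerA {z : Ex k} (h : z * ga k = 0) : ∃ w, w * (ga k + gb k + gd k) = z :=
  (kerAB (z₁ := z) (z₂ := 0) (by rw [h, zero_mul, add_zero])).1

lemma kerBC {z₁ z₂ : Ex k} (h : z₁ * gb k + z₂ * gc k = 0) :
    (∃ w, w * ga k = z₁) ∧ ∃ w w', w * ga k + w' * gb k = z₂ := by
  obtain ⟨p₁, p₂, p₃, p₄, p₅, p₆, t, -, e₂, e₃, e₄⟩ :=
    ker_zero (y₁ := 0) (y₂ := z₁) (y₃ := z₂) (y₄ := 0)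
      (by rw [zero_mul, zero_mul, add_zero, zero_add, h])
  have ht : t * gd k = 0 := lemK (p := p₅) (q := p₆) (by rw [e₄]; abel)
  exact ⟨⟨p₂, by rw [e₂, ht, add_zero]⟩, p₃, p₄, by rw [e₃, ht, add_zero]⟩

lemma kerD {z : Ex k} (h : z * gd k = 0) : ∃ w w', w * gb k + w' * gc k = z := by
  obtain ⟨p₁, p₂, p₃, p₄, p₅, p₆, t, -, -, e₃, e₄⟩ :=
    ker_zero (y₁ := 0) (y₂ := 0) (y₃ := 0) (y₄ := z)
      (by rw [zero_mul, zero_mul, zero_mul, zero_add, zero_add, zero_add, h])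
  have ht : t * gd k = 0 := lemD (p := p₃) (q := p₄) (by rw [e₃]; abel)
  exact ⟨p₅, p₆, by rw [e₄, ht, add_zero]⟩

end

end Pool.Agent.TH38.Kos
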