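import Pool.Agent.TH38.KosExample

/-!
# The linear resolution of length six of the example
-/

universe u

open CategoryTheory Matrix

namespace Pool.Agent.TH38.Kos

section

variable (k : Type u) [Field k]

/-- The differential `A^4 → A`. -/
noncomputable def mat0 : Matrix (Fin 4) (Fin 1) (Ex k) :=
  !![ga k; gb k; gc k; gd k]

/-- The differential `A^8 → A^7`. -/
noncomputable def mat2 : Matrix (Fin 8) (Fin 7) (Ex k) :=
  !![0, ga k + gb k + gd k, 0, 0, 0, 0, 0;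
     0, 0, ga k + gb k + gd k, 0, 0, 0, 0;
     0, 0, 0, ga k, 0, 0, 0;
     0, 0, 0, 0, ga k, 0, 0;
     0, 0, 0, 0, 0, ga k, 0;
     0, 0, 0, 0, 0, gb k, 0;
     0, 0, 0, 0, 0, 0, gb k;
     0, 0, 0, 0, 0, 0, gc k]

/-- The differential `A^7 → A^8`. -/
noncomputable def mat3 : Matrix (Fin 7) (Fin 8) (Ex k) :=
  !![0, 0, ga k + gb k + gd k, 0, 0, 0, 0, 0;
     0, 0, 0, ga k + gb k + gd k, 0, 0, 0, 0;
     0, 0, 0, 0, ga k + gb k + gd k, 0, 0, 0;
     0, 0, 0, 0, 0, ga k, 0, 0;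
     0, 0, 0, 0, 0, 0, ga k, 0;
     0, 0, 0, 0, 0, 0, 0, ga k;
     0, 0, 0, 0, 0, 0, 0, gb k]

/-- The differential `A^4 → A^7`. -/
noncomputable def mat4 : Matrix (Fin 4) (Fin 7) (Ex k) :=
  !![0, 0, 0, ga k + gb k + gd k, 0, 0, 0;
     0, 0, 0, 0, ga k + gb k + gd k, 0, 0;
     0, 0, 0, 0, 0, ga k + gb k + gd k, 0;
     0, 0, 0, 0, 0, 0, ga k]

/-- The differential `A → A^4`. -/
noncomputable def mat5 : Matrix (Fin 1) (Fin 4) (Ex k) :=
  !![0, 0, 0, ga k + gb k + gd k]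

variable {k}

lemma exact0 (v : Fin 1 → Ex k) :
    (∀ p, aug k (exRel k) (v p) = 0) ↔ ∃ w, w ᵥ* mat0 k = v := by
  constructor
  · intro h
    obtain ⟨w, hw⟩ := exists_decomp (v 0)
    refine ⟨w, ?_⟩
    ext i
    fin_cases i
    rw [h 0, zero_smul, zero_add] at hw
    simpa [Matrix.vecMul, dotProduct, Fin.sum_univ_four, mat0, ga, gb, gc, gd] using hw.symm
  · rintro ⟨w, rfl⟩ p
    fin_cases p
    simp [Matrix.vecMul, dotProduct, Fin.sum_univ_four, mat0, ga, gb, gc, gd]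

lemma exact1 (v : Fin 4 → Ex k) : v ᵥ* mat0 k = 0 ↔ ∃ w, w ᵥ* mat1 k = v := by
  constructor
  · intro h
    have h0 := congrFun h 0
    have h1 : v ∈ LinearMap.range (mat1 k).vecMulLinear := by
      refine mem_of_sum_eq_zero (rows_mem k) ?_
      simpa [Matrix.vecMul, dotProduct, Fin.sum_univ_four, mat0, ga, gb, gc, gd] using h0
    exact h1
  · rintro ⟨w, rfl⟩
    rw [Matrix.vecMul_vecMul]
    have : mat1 k * mat0 k = 0 := by
      ext i j
      fin_cases j
      fin_cases i <;>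
        simp [Matrix.mul_apply, Fin.sum_univ_four, mat0, mat1, rel_ua, rel_ab, rel_ac, rel_bc,
          rel_bd, rel_cd]
      rw [← rel_d k, mul_add, mul_add, mul_add]
    rw [this, Matrix.vecMul_zero]

lemma exact2 (v : Fin 7 → Ex k) : v ᵥ* mat1 k = 0 ↔ ∃ w, w ᵥ* mat2 k = v := by
  constructor
  · intro h
    have h0 := congrFun h 0
    have h1 := congrFun h 1
    have h2 := congrFun h 2
    have h3 := congrFun h 3
    simp [Matrix.vecMul, dotProduct, Fin.sum_univ_seven, mat1] at h0 h1 h2 h3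
    have ht : v 6 * gd k = 0 := lemK (p := v 4) (q := v 5) (by rw [← h3]; abel)
    rw [ht, add_zero] at h0 h1 h2 h3
    obtain ⟨w₀, hw₀⟩ := kerA h1
    obtain ⟨⟨w₁, hw₁⟩, w₂, hw₂⟩ := kerAB h2
    obtain ⟨⟨w₃, hw₃⟩, w₄, w₅, hw₄⟩ := kerBC h3
    obtain ⟨w₆, w₇, hw₆⟩ := kerD ht
    have hz := kerU h0
    refine ⟨![w₀, w₁, w₂, w₃, w₄, w₅, w₆, w₇], ?_⟩
    ext i
    fin_cases i <;>
      simp [Matrix.vecMul, dotProduct, Fin.sum_univ_eight, mat2, *]
  · rintro ⟨w, rfl⟩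
    rw [Matrix.vecMul_vecMul]
    have : mat2 k * mat1 k = 0 := by
      ext i j
      fin_cases j <;> fin_cases i <;>
        simp [Matrix.mul_apply, Fin.sum_univ_seven, mat2, mat1, rel_ua, rel_ab, rel_ac, rel_bc,
          rel_bd, rel_cd]
    rw [this, Matrix.vecMul_zero]

lemma exact3 (v : Fin 8 → Ex k) : v ᵥ* mat2 k = 0 ↔ ∃ w, w ᵥ* mat3 k = v := by
  constructor
  · intro h
    have h1 := congrFun h 1
    have h2 := congrFun h 2
    have h3 := congrFun h 3
    have h4 := congrFun h 4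
    have h5 := congrFun h 5
    have h6 := congrFun h 6
    simp [Matrix.vecMul, dotProduct, Fin.sum_univ_eight, mat2] at h1 h2 h3 h4 h5 h6
    have e₀ := kerU h1
    have e₁ := kerU h2
    obtain ⟨w₀, hw₀⟩ := kerA h3
    obtain ⟨w₁, hw₁⟩ := kerA h4
    obtain ⟨⟨w₂, hw₂⟩, w₃, hw₃⟩ := kerAB h5
    obtain ⟨⟨w₄, hw₄⟩, w₅, w₆, hw₅⟩ := kerBC h6
    refine ⟨![w₀, w₁, w₂, w₃, w₄, w₅, w₆], ?_⟩
    ext i
    fin_cases i <;>
      simp [Matrix.vecMul, dotProduct, Fin.sum_univ_seven, mat3, *]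
  · rintro ⟨w, rfl⟩
    rw [Matrix.vecMul_vecMul]
    have : mat3 k * mat2 k = 0 := by
      ext i j
      fin_cases j <;> fin_cases i <;>
        simp [Matrix.mul_apply, Fin.sum_univ_eight, mat2, mat3, rel_ua, rel_ab, rel_ac, rel_bc]
    rw [this, Matrix.vecMul_zero]

lemma exact4 (v : Fin 7 → Ex k) : v ᵥ* mat3 k = 0 ↔ ∃ w, w ᵥ* mat4 k = v := by
  constructor
  · intro h
    have h2 := congrFun h 2
    have h3 := congrFun h 3
    have h4 := congrFun h 4
    have h5 := congrFun h 5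
    have h6 := congrFun h 6
    have h7 := congrFun h 7
    simp [Matrix.vecMul, dotProduct, Fin.sum_univ_seven, mat3] at h2 h3 h4 h5 h6 h7
    have e₀ := kerU h2
    have e₁ := kerU h3
    have e₂ := kerU h4
    obtain ⟨w₀, hw₀⟩ := kerA h5
    obtain ⟨w₁, hw₁⟩ := kerA h6
    obtain ⟨⟨w₂, hw₂⟩, w₃, hw₃⟩ := kerAB h7
    refine ⟨![w₀, w₁, w₂, w₃], ?_⟩
    ext i
    fin_cases i <;>
      simp [Matrix.vecMul, dotProduct, Fin.sum_univ_four, mat4, *]
  · rintro ⟨w, rfl⟩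
    rw [Matrix.vecMul_vecMul]
    have : mat4 k * mat3 k = 0 := by
      ext i j
      fin_cases j <;> fin_cases i <;>
        simp [Matrix.mul_apply, Fin.sum_univ_seven, mat4, mat3, rel_ua, rel_ab]
    rw [this, Matrix.vecMul_zero]

lemma exact5 (v : Fin 4 → Ex k) : v ᵥ* mat4 k = 0 ↔ ∃ w, w ᵥ* mat5 k = v := by
  constructor
  · intro h
    have h3 := congrFun h 3
    have h4 := congrFun h 4
    have h5 := congrFun h 5
    have h6 := congrFun h 6
    simp [Matrix.vecMul, dotProduct, Fin.sum_univ_four, mat4] at h3 h4 h5 h6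
    have e₀ := kerU h3
    have e₁ := kerU h4
    have e₂ := kerU h5
    obtain ⟨w₀, hw₀⟩ := kerA h6
    refine ⟨![w₀], ?_⟩
    ext i
    fin_cases i <;>
      simp [Matrix.vecMul, dotProduct, mat5, *]
  · rintro ⟨w, rfl⟩
    rw [Matrix.vecMul_vecMul]
    have : mat5 k * mat4 k = 0 := by
      ext i j
      fin_cases j <;> fin_cases i <;>
        simp [Matrix.mul_apply, Fin.sum_univ_four, mat4, mat5, rel_ua]
    rw [this, Matrix.vecMul_zero]

lemma exact6 (v : Fin 1 → Ex k) : v ᵥ* mat5 k = 0 ↔ v = 0 := by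
  constructor
  · intro h
    have h3 := congrFun h 3
    simp [Matrix.vecMul, dotProduct, mat5] at h3
    have e₀ := kerU h3
    ext i
    fin_cases i
    exact e₀
  · rintro rfl
    rw [Matrix.zero_vecMul]

/-- The Betti numbers `1, 4, 7, 8, 7, 4, 1, 0, 0, …`. -/
def rk : ℕ → ℕ
  | 0 => 1
  | 1 => 4
  | 2 => 7
  | 3 => 8
  | 4 => 7
  | 5 => 4
  | 6 => 1
  | _ => 0

variable (k)

/-- The differentials. -/
noncomputable def diff : (i : ℕ) → Matrix (Fin (rk (i + 1))) (Fin (rk i)) (Ex k)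
  | 0 => mat0 k
  | 1 => mat1 k
  | 2 => mat2 k
  | 3 => mat3 k
  | 4 => mat4 k
  | 5 => mat5 k
  | _ + 6 => 0

variable {k}

lemma diff_exact (i : ℕ) (v : Fin (rk (i + 1)) → Ex k) :
    v ᵥ* diff k i = 0 ↔ ∃ w, w ᵥ* diff k (i + 1) = v := by
  match i, v with
  | 0, v => exact exact1 v
  | 1, v => exact exact2 v
  | 2, v => exact exact3 v
  | 3, v => exact exact4 v
  | 4, v => exact exact5 v
  | 5, v =>
    refine (exact6 v).trans ⟨fun h => ⟨0, ?_⟩, ?_⟩
    · exact (Matrix.zero_vecMul _).trans h.symm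
    · rintro ⟨w, rfl⟩
      exact Matrix.vecMul_zero w
  | (n + 6), v =>
    have : Subsingleton (Fin (rk (n + 6 + 1)) → Ex k) := by
      change Subsingleton (Fin 0 → Ex k)
      infer_instance
    exact ⟨fun _ => ⟨0, Subsingleton.elim _ _⟩, fun _ => by
      rw [Subsingleton.elim v 0, Matrix.zero_vecMul]⟩

lemma ga_mem : ga k ∈ degOne k (exRel k) := Submodule.subset_span ⟨0, rfl⟩
lemma gb_mem : gb k ∈ degOne k (exRel k) := Submodule.subset_span ⟨1, rfl⟩
lemma gc_mem : gc k ∈ degOne k (exRel k) := Submodule.subset_span ⟨2, rfl⟩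
lemma gd_mem : gd k ∈ degOne k (exRel k) := Submodule.subset_span ⟨3, rfl⟩
lemma gu_mem : ga k + gb k + gd k ∈ degOne k (exRel k) :=
  add_mem (add_mem ga_mem gb_mem) gd_mem

lemma diff_linear (i : ℕ) (p : Fin (rk (i + 1))) (q : Fin (rk i)) :
    diff k i p q ∈ degOne k (exRel k) := by
  match i, p, q with
  | 0, p, q =>
    change Fin 4 at p; change Fin 1 at q
    fin_cases p <;> fin_cases q <;>
      simp [diff, mat0, ga_mem, gb_mem, gc_mem, gd_mem]
  | 1, p, q =>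
    change Fin 7 at p; change Fin 4 at q
    fin_cases p <;> fin_cases q <;>
      simp [diff, mat1, ga_mem, gb_mem, gc_mem, gd_mem, gu_mem]
  | 2, p, q =>
    change Fin 8 at p; change Fin 7 at q
    fin_cases p <;> fin_cases q <;>
      simp [diff, mat2, ga_mem, gb_mem, gc_mem, gd_mem, gu_mem]
  | 3, p, q =>
    change Fin 7 at p; change Fin 8 at q
    fin_cases p <;> fin_cases q <;>
      simp [diff, mat3, ga_mem, gb_mem, gc_mem, gd_mem, gu_mem]
  | 4, p, q =>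
    change Fin 4 at p; change Fin 7 at q
    fin_cases p <;> fin_cases q <;>
      simp [diff, mat4, ga_mem, gb_mem, gc_mem, gd_mem, gu_mem]
  | 5, p, q =>
    change Fin 1 at p; change Fin 4 at q
    fin_cases p <;> fin_cases q <;>
      simp [diff, mat5, ga_mem, gb_mem, gc_mem, gd_mem, gu_mem]
  | (n + 6), p, q => exact zero_mem _

theorem ex_isKoszul : IsKoszul k (exRel k) :=
  ⟨rk, diff k, rfl, diff_linear, exact0, diff_exact⟩

end

end Pool.Agent.TH38.Kos
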